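import Pool.Agent.H51.QFGenus

namespace Pool.Agent.Results.MP_14e93c_nt.ClassNumberOne
open Pool.Agent.H51.QFDefs Pool.Agent.H51.QFGenusDefs

/-- Over any Dedekind domain whose nonzero ideals have finite index (in particular over every Hasse
domain, in any characteristic), an anisotropic Euclidean quadratic form has class number one. -/
theorem result (R K : Type) [CommRing R] [IsDedekindDomain R] [Ring.HasFiniteQuotients R]
    [Field K] [Algebra R K] [IsFractionRing R K] (n : ℕ) (a : Fin n → Fin n → R)
    (haniso : Anisotropic a K) (heuc : IsEuclid a K) : ClassNumberOne a K := by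
  refine Pool.Agent.H51.QFGenus.main (fun x hx => ?_) a haniso heuc
  have := Ring.HasFiniteQuotients.finiteQuotient (R := R) (I := Ideal.span {x}) (by simpa using hx)
  unfold nrm
  rw [if_neg hx]
  exact Nat.card_pos.ne'

end Pool.Agent.Results.MP_14e93c_nt.ClassNumberOne
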